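import Pool.Agent.Helper51.SS.Final

namespace Pool.Agent.Results.MP_9415b6_co.Q1Classification

open Pool.Agent.Helper51.SS

/-- Question Q1, in full: for which `(n,k,x)` is `(ℤ/n, 𝓑_k^x)` a `1`-design? -/
theorem result (n : ℕ) [NeZero n] (_hn : 2 ≤ n) (k : ℕ) (hk : 1 ≤ k) (hkn : k ≤ n) (x : ZMod n) :
    IsOneDesign (blocks n k x) ↔
      (k = n ∧ x = ∑ t : ZMod n, t) ∨
      (k < n ∧ (Crit n k x ∨ Crit n (n - k) ((∑ t : ZMod n, t) - x))) :=
  classification n k hk hkn x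

end Pool.Agent.Results.MP_9415b6_co.Q1Classification
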