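import Pool.Agent.Helper45.SD.Final

set_option autoImplicit false

namespace Pool.Agent.Results.MP_9415b6_co.Q2Classification

open Pool.Agent.Helper51.SS Pool.Agent.Helper45.SD

/-- Question Q2, in full: for which `(n, k, x)` is `(ℤ/n ∖ {0}, 𝓑_k^{x,*})` a `1`-design? -/
theorem result (n : ℕ) [NeZero n] (hn : 2 ≤ n) (k : ℕ) (hk : 1 ≤ k) (hkn : k ≤ n - 1)
    (x : ZMod n) :
    IsOneDesign (blocksStar n k x) ↔
      (k = n - 1 ∧ x = ∑ t : ZMod n, t) ∨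
      (x = 0 ∧ 2 ≤ k ∧ k + 3 ≤ n ∧
        ((∀ q : ℕ, q.Prime → q ∣ n → k < q) ∨
         (∀ q : ℕ, q.Prime → q ∣ n → n - 1 - k < q) ∨
         (∀ q : ℕ, q.Prime → q ∣ n → (n - 1) ∣ k * (q - 1)))) :=
  main n hn k hk hkn x

end Pool.Agent.Results.MP_9415b6_co.Q2Classification
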